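import Pool.Agent.Lib_helper68.MC.Defs

/-! Project MC (MP_b08f5f_an, microcanonical), block EN: the energy of densities. -/

set_option autoImplicit false

namespace Pool.Agent.Lib_helper68.MC

open MeasureTheory Filter Topology Set
open scoped ComplexConjugate ENNReal NNReal
open Pool.Agent.Lib_helper25.PV (Conf vel Motion centre inertia NC VFlow)
open Pool.Agent.Lib_helper12.HE (ham rad nrm Gam sig shell turn one LimAvg)

noncomputable section

/-- `a b ≤ a log a - a + e^b` -/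
theorem EN_young {a : ℝ} (ha : 0 ≤ a) (b : ℝ) : a * b ≤ a * Real.log a - a + Real.exp b := by
  rcases ha.eq_or_lt with rfl | ha
  · simp only [zero_mul, sub_zero, zero_add]
    exact (Real.exp_pos b).le
  · have h1 : b - Real.log a + 1 ≤ Real.exp (b - Real.log a) := Real.add_one_le_exp _
    rw [Real.exp_sub, Real.exp_log ha, le_div_iff₀ ha] at h1
    nlinarith

/-- the singular kernel -/
def EN_g (x : ℂ) : ℝ := (Metric.ball (0 : ℂ) 1).indicator (fun x => ‖x‖⁻¹) x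

theorem EN_g_nonneg (x : ℂ) : 0 ≤ EN_g x :=
  Set.indicator_nonneg (fun _ _ => inv_nonneg.2 (norm_nonneg _)) _

theorem EN_g_int : Integrable EN_g := by
  unfold EN_g
  change Integrable ((Metric.ball (0 : ℂ) 1).indicator fun x => ‖x‖⁻¹)
  rw [integrable_indicator_iff measurableSet_ball,
    integrableOn_fun_norm_addHaar (volume : Measure ℂ) (f := fun y : ℝ => y⁻¹),
    Complex.finrank_real_complex]
  have h1 : IntegrableOn (fun _ : ℝ => (1 : ℝ)) (Ioo 0 1) :=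
    integrableOn_const (by simp)
  refine h1.congr_fun ?_ measurableSet_Ioo
  intro y hy
  simp only [Nat.add_one_sub_one, pow_one, smul_eq_mul]
  rw [mul_inv_cancel₀ hy.1.ne']

theorem EN_first {ρ : ℂ → ℝ} (h : Dens ρ) : Integrable fun x => ‖x‖ * ρ x := by
  refine Integrable.mono' (h.int.add h.mom) ?_ (Filter.Eventually.of_forall fun x => ?_)
  · exact (measurable_norm.mul h.meas).aestronglyMeasurable
  · have h0 := h.nonneg x
    rw [Real.norm_eq_abs, abs_of_nonneg (mul_nonneg (norm_nonneg x) h0)]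
    change ‖x‖ * ρ x ≤ ρ x + ‖x‖ ^ 2 * ρ x
    nlinarith [mul_nonneg (sq_nonneg (‖x‖ - 1)) h0, sq_nonneg (‖x‖ - 1),
      mul_nonneg (norm_nonneg x) h0, mul_nonneg (sq_nonneg ‖x‖) h0]

/-- the pointwise bound -/
theorem EN_bound {ρ ρ' : ℂ → ℝ} (h : Dens ρ) (h' : Dens ρ') (p : ℂ × ℂ) :
    ‖Real.log ‖p.1 - p.2‖ * (ρ p.1 * ρ' p.2)‖ ≤
      (‖p.1‖ * ρ p.1) * ρ' p.2 + ρ p.1 * (‖p.2‖ * ρ' p.2) +
        |ρ p.1 * Real.log (ρ p.1)| * ρ' p.2 + ρ' p.2 * EN_g (p.1 - p.2) := by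
  have h0 := h.nonneg p.1
  have h1 := h'.nonneg p.2
  have hg := EN_g_nonneg (p.1 - p.2)
  have a1 : 0 ≤ (‖p.1‖ * ρ p.1) * ρ' p.2 := by positivity
  have a2 : 0 ≤ ρ p.1 * (‖p.2‖ * ρ' p.2) := by positivity
  have a3 : 0 ≤ |ρ p.1 * Real.log (ρ p.1)| * ρ' p.2 := by positivity
  have a4 : 0 ≤ ρ' p.2 * EN_g (p.1 - p.2) := mul_nonneg h1 hg
  rw [norm_mul, Real.norm_eq_abs, Real.norm_eq_abs, abs_of_nonneg (mul_nonneg h0 h1)]
  rcases (norm_nonneg (p.1 - p.2)).eq_or_lt with hz | hz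
  · rw [← hz, Real.log_zero, abs_zero, zero_mul]
    positivity
  rcases le_or_gt 1 ‖p.1 - p.2‖ with h2 | h2
  · rw [abs_of_nonneg (Real.log_nonneg h2)]
    have h3 : Real.log ‖p.1 - p.2‖ ≤ ‖p.1‖ + ‖p.2‖ := by
      have := Real.log_le_sub_one_of_pos hz
      have := norm_sub_le p.1 p.2
      linarith
    have h4 := mul_le_mul_of_nonneg_right h3 (mul_nonneg h0 h1)
    nlinarith
  · have h3 : |Real.log ‖p.1 - p.2‖| = Real.log ‖p.1 - p.2‖⁻¹ := by
      rw [Real.log_inv, abs_of_nonpos (Real.log_nonpos hz.le h2.le)]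
    have h4 := EN_young h0 (Real.log ‖p.1 - p.2‖⁻¹)
    rw [Real.exp_log (inv_pos.2 hz)] at h4
    have h5 : EN_g (p.1 - p.2) = ‖p.1 - p.2‖⁻¹ := by
      unfold EN_g
      rw [indicator_of_mem]
      rw [mem_ball_zero_iff]
      exact h2
    rw [h3, h5]
    have h6 : ρ p.1 * Real.log ‖p.1 - p.2‖⁻¹ ≤
        |ρ p.1 * Real.log (ρ p.1)| + ‖p.1 - p.2‖⁻¹ := by
      have := le_abs_self (ρ p.1 * Real.log (ρ p.1))
      linarith
    have h7 := mul_le_mul_of_nonneg_right h6 h1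
    nlinarith

theorem EN_int {ρ ρ' : ℂ → ℝ} (h : Dens ρ) (h' : Dens ρ') :
    Integrable fun p : ℂ × ℂ => Real.log ‖p.1 - p.2‖ * (ρ p.1 * ρ' p.2) := by
  have i1 : Integrable fun p : ℂ × ℂ => (‖p.1‖ * ρ p.1) * ρ' p.2 :=
    (EN_first h).mul_prod h'.int
  have i2 : Integrable fun p : ℂ × ℂ => ρ p.1 * (‖p.2‖ * ρ' p.2) :=
    h.int.mul_prod (EN_first h')
  have i3 : Integrable fun p : ℂ × ℂ => |ρ p.1 * Real.log (ρ p.1)| * ρ' p.2 :=
    h.ent.abs.mul_prod h'.int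
  have i4 : Integrable fun p : ℂ × ℂ => ρ' p.2 * EN_g (p.1 - p.2) := by
    have := h'.int.convolution_integrand (ContinuousLinearMap.mul ℝ ℝ) EN_g_int
    exact this
  refine Integrable.mono' (((i1.add i2).add i3).add i4) ?_
    (Filter.Eventually.of_forall fun p => EN_bound h h' p)
  have hm : Measurable fun p : ℂ × ℂ => Real.log ‖p.1 - p.2‖ * (ρ p.1 * ρ' p.2) :=
    ((measurable_fst.sub measurable_snd).norm.log).mul
      ((h.meas.comp measurable_fst).mul (h'.meas.comp measurable_snd))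
  exact hm.aestronglyMeasurable

theorem EN_symm (ρ ρ' : ℂ → ℝ) : En ρ ρ' = En ρ' ρ := by
  unfold En
  congr 1
  have h1 := MeasureTheory.integral_prod_swap (μ := (volume : Measure ℂ))
    (ν := (volume : Measure ℂ)) fun p : ℂ × ℂ => Real.log ‖p.1 - p.2‖ * (ρ' p.1 * ρ p.2)
  rw [Measure.volume_eq_prod, ← h1]
  refine integral_congr_ae (Filter.Eventually.of_forall fun p => ?_)
  simp only [Prod.fst_swap, Prod.snd_swap]
  rw [norm_sub_rev]
  ring

theorem EN_mix {ρ ρ' : ℂ → ℝ} (h : Dens ρ) (h' : Dens ρ') (t : ℝ) :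
    En (mix t ρ ρ') (mix t ρ ρ') =
      (1 - t) ^ 2 * En ρ ρ + 2 * t * (1 - t) * En ρ ρ' + t ^ 2 * En ρ' ρ' := by
  have hs := EN_symm ρ ρ'
  have i1 := EN_int h h
  have i2 := EN_int h h'
  have i3 := EN_int h' h
  have i4 := EN_int h' h'
  have key : ∫ p : ℂ × ℂ, Real.log ‖p.1 - p.2‖ * (mix t ρ ρ' p.1 * mix t ρ ρ' p.2) =
      (1 - t) ^ 2 * (∫ p : ℂ × ℂ, Real.log ‖p.1 - p.2‖ * (ρ p.1 * ρ p.2)) +
      t * (1 - t) * (∫ p : ℂ × ℂ, Real.log ‖p.1 - p.2‖ * (ρ p.1 * ρ' p.2)) +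
      t * (1 - t) * (∫ p : ℂ × ℂ, Real.log ‖p.1 - p.2‖ * (ρ' p.1 * ρ p.2)) +
      t ^ 2 * (∫ p : ℂ × ℂ, Real.log ‖p.1 - p.2‖ * (ρ' p.1 * ρ' p.2)) := by
    have j1 := i1.const_mul ((1 - t) ^ 2)
    have j2 := i2.const_mul (t * (1 - t))
    have j3 := i3.const_mul (t * (1 - t))
    have j4 := i4.const_mul (t ^ 2)
    have e1 := integral_add j1 j2
    have e2 := integral_add (j1.add j2) j3
    have e3 := integral_add ((j1.add j2).add j3) j4
    simp only [Pi.add_apply] at e2 e3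
    rw [e2, e1] at e3
    rw [integral_const_mul, integral_const_mul, integral_const_mul, integral_const_mul] at e3
    rw [← e3]
    refine integral_congr_ae (Filter.Eventually.of_forall fun p => ?_)
    simp only [mix]
    ring
  unfold En at hs ⊢
  rw [key]
  linear_combination (-t * (1 - t)) * hs

end

end Pool.Agent.Lib_helper68.MC
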