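import Pool.Agent.Lib_helper72.MC.GE
import Pool.Agent.Lib_helper88.MC.MX

/-! Project MC (MP_b08f5f_an, microcanonical), block SL: slack in the moment can be sold. -/

set_option autoImplicit false

namespace Pool.Agent.Lib_helper68.MC

open MeasureTheory Filter Topology Set
open scoped ComplexConjugate ENNReal NNReal

noncomputable section

/-- the annulus -/
def SL_A (R : ℝ) : Set ℂ := {x | R ≤ ‖x‖ ∧ ‖x‖ < 2 * R}

theorem SL_A_meas (R : ℝ) : MeasurableSet (SL_A R) :=
  (measurableSet_le measurable_const measurable_norm).inter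
    (measurableSet_lt measurable_norm measurable_const)

theorem SL_A_eq (R : ℝ) : SL_A R = Metric.ball (0 : ℂ) (2 * R) \ Metric.ball (0 : ℂ) R := by
  ext x
  simp only [SL_A, Set.mem_ofPred_eq, Set.mem_sdiff, mem_ball_zero_iff, not_lt]
  exact and_comm

theorem SL_A_vol {R : ℝ} (hR : 0 < R) :
    volume (SL_A R) = ENNReal.ofReal (3 * Real.pi * R ^ 2) := by
  have hp : (NNReal.pi : ℝ≥0∞) = ENNReal.ofReal Real.pi := by
    rw [← NNReal.coe_real_pi, ENNReal.ofReal_coe_nnreal]
  rw [SL_A_eq, measure_sdiff (Metric.ball_subset_ball (by linarith))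
    measurableSet_ball.nullMeasurableSet measure_ball_lt_top.ne, Complex.volume_ball, Complex.volume_ball, hp,
    ← ENNReal.ofReal_pow (by linarith), ← ENNReal.ofReal_pow hR.le,
    ← ENNReal.ofReal_mul (by positivity), ← ENNReal.ofReal_mul (by positivity),
    ← ENNReal.ofReal_sub _ (by positivity)]
  congr 1
  ring

/-- the uniform density of the annulus -/
def SL_g (R : ℝ) : ℂ → ℝ := (SL_A R).indicator fun _ => (3 * Real.pi * R ^ 2)⁻¹

theorem SL_real {R : ℝ} (hR : 0 < R) : volume.real (SL_A R) = 3 * Real.pi * R ^ 2 := by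
  rw [measureReal_def, SL_A_vol hR, ENNReal.toReal_ofReal (by positivity)]

theorem SL_ind {R : ℝ} (hR : 0 < R) (c : ℝ) :
    Integrable ((SL_A R).indicator fun _ : ℂ => c) := by
  rw [integrable_indicator_iff (SL_A_meas R)]
  exact integrableOn_const (by rw [SL_A_vol hR]; exact ENNReal.ofReal_ne_top)

theorem SL_int_ind {R : ℝ} (hR : 0 < R) (c : ℝ) :
    ∫ x, (SL_A R).indicator (fun _ : ℂ => c) x = 3 * Real.pi * R ^ 2 * c := by
  rw [integral_indicator (SL_A_meas R), setIntegral_const, SL_real hR, smul_eq_mul]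

theorem SL_mom_le {R : ℝ} (x : ℂ) :
    ‖x‖ ^ 2 * SL_g R x ≤ (SL_A R).indicator (fun _ => 4 * R ^ 2 * (3 * Real.pi * R ^ 2)⁻¹) x := by
  unfold SL_g
  by_cases hx : x ∈ SL_A R
  · rw [indicator_of_mem hx, indicator_of_mem hx]
    refine mul_le_mul_of_nonneg_right ?_ (by positivity)
    have h1 := hx.2
    nlinarith [norm_nonneg x]
  · rw [indicator_of_notMem hx, indicator_of_notMem hx, mul_zero]

theorem SL_g_nonneg (R : ℝ) (x : ℂ) : 0 ≤ SL_g R x :=
  indicator_nonneg (fun _ _ => by positivity) x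

theorem SL_g_meas (R : ℝ) : Measurable (SL_g R) := measurable_const.indicator (SL_A_meas R)

theorem SL_g_dens {R : ℝ} (hR : 0 < R) : Dens (SL_g R) where
  meas := SL_g_meas R
  nonneg := SL_g_nonneg R
  int := SL_ind hR _
  one := by
    unfold SL_g
    rw [SL_int_ind hR]
    exact mul_inv_cancel₀ (by positivity)
  ent := by
    have h1 : (fun x => SL_g R x * Real.log (SL_g R x)) =
        (SL_A R).indicator fun _ => (3 * Real.pi * R ^ 2)⁻¹ *
          Real.log ((3 * Real.pi * R ^ 2)⁻¹) := by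
      funext x
      unfold SL_g
      by_cases hx : x ∈ SL_A R
      · rw [indicator_of_mem hx, indicator_of_mem hx]
      · rw [indicator_of_notMem hx, indicator_of_notMem hx, zero_mul]
    rw [h1]
    exact SL_ind hR _
  mom := by
    refine Integrable.mono' (SL_ind hR (4 * R ^ 2 * (3 * Real.pi * R ^ 2)⁻¹)) ?_
      (Filter.Eventually.of_forall fun x => ?_)
    · exact ((measurable_norm.pow_const 2).mul (SL_g_meas R)).aestronglyMeasurable
    · rw [Real.norm_eq_abs, abs_of_nonneg (mul_nonneg (sq_nonneg _) (SL_g_nonneg R x))]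
      exact SL_mom_le x

theorem SL_g_mo {R : ℝ} (hR : 0 < R) : mo (SL_g R) ≤ 4 * R ^ 2 := by
  have h1 : mo (SL_g R) ≤
      ∫ x, (SL_A R).indicator (fun _ : ℂ => 4 * R ^ 2 * (3 * Real.pi * R ^ 2)⁻¹) x :=
    integral_mono (SL_g_dens hR).mom (SL_ind hR _) fun x => SL_mom_le x
  rw [SL_int_ind hR] at h1
  refine h1.trans_eq ?_
  have h2 : (3 * Real.pi * R ^ 2) ≠ 0 := by positivity
  field_simp

/-- a finite moment leaves thin dyadic annuli -/
theorem SL_thin {ρ : ℂ → ℝ} (h : Dens ρ) {K : ℝ} (hK : 0 < K) :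
    ∃ R : ℝ, 1 ≤ R ∧ ∫ x in SL_A R, ρ x ≤ 1 / (K * R ^ 2) := by
  set A : ℕ → Set ℂ := fun j => SL_A (2 ^ j) with hA
  have hd : Pairwise (Function.onFun Disjoint A) := by
    have key : ∀ i j : ℕ, i < j → Disjoint (A i) (A j) := by
      intro i j hij
      rw [Set.disjoint_left]
      intro x hx hx'
      have h1 : ‖x‖ < 2 * 2 ^ i := hx.2
      have h2 : (2 : ℝ) ^ j ≤ ‖x‖ := hx'.1
      have h3 : (2 : ℝ) ^ (i + 1) ≤ 2 ^ j := pow_le_pow_right₀ (by norm_num) hij
      rw [pow_succ] at h3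
      linarith
    intro i j hij
    rcases lt_or_gt_of_ne hij with h1 | h1
    · exact key i j h1
    · exact (key j i h1).symm
  have hs : HasSum (fun j => ∫ x in A j, ‖x‖ ^ 2 * ρ x) (∫ x in ⋃ j, A j, ‖x‖ ^ 2 * ρ x) :=
    hasSum_integral_iUnion (fun j => SL_A_meas _) hd h.mom.integrableOn
  have ht := hs.summable.tendsto_atTop_zero
  have hev := ht.eventually (gt_mem_nhds (show (0 : ℝ) < 1 / K by positivity))
  obtain ⟨j, hj⟩ := hev.exists
  refine ⟨2 ^ j, one_le_pow₀ (by norm_num), ?_⟩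
  have hR : (0 : ℝ) < 2 ^ j := by positivity
  have h1 : ∫ x in SL_A (2 ^ j), (2 ^ j) ^ 2 * ρ x ≤ ∫ x in A j, ‖x‖ ^ 2 * ρ x := by
    refine setIntegral_mono_on (h.int.const_mul _).integrableOn h.mom.integrableOn
      (SL_A_meas _) fun x hx => ?_
    refine mul_le_mul_of_nonneg_right ?_ (h.nonneg x)
    exact pow_le_pow_left₀ hR.le hx.1 2
  rw [integral_const_mul] at h1
  rw [one_div, mul_inv, ← one_div, ← div_eq_mul_inv, le_div_iff₀ (by positivity)]
  linarith

/-- the pointwise inequality for the entropy of the mixture -/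
theorem SL_point {a b t c : ℝ} (ha : 0 ≤ a) (hb : 0 ≤ b) (h0 : 0 ≤ t) (h1 : t ≤ 1) (hc : 0 < c) :
    ((1 - t) * a + t * b) * Real.log ((1 - t) * a + t * b) ≤
      (1 - t) * (a * Real.log a) + (1 - t) * t * (b - a) + t * (Real.log c - 1) * b +
        t / c * (b * ((1 - t) * a + t * b)) := by
  have k1 : 0 ≤ (1 - t) * a := mul_nonneg (by linarith) ha
  have k2 : 0 ≤ t * b := mul_nonneg h0 hb
  rcases (add_nonneg k1 k2).eq_or_lt with h | h
  · have e1 : (1 - t) * a = 0 := by linarith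
    have e2 : t * b = 0 := by linarith
    have e3 : (1 - t) * (a * Real.log a) = (1 - t) * a * Real.log a := by ring
    have e4 : (1 - t) * t * (b - a) = (1 - t) * (t * b) - t * ((1 - t) * a) := by ring
    have e5 : t * (Real.log c - 1) * b = (Real.log c - 1) * (t * b) := by ring
    rw [e3, e4, e5, e1, e2]
    simp
  · set u : ℝ := (1 - t) * a + t * b with hu
    have e1 : a * Real.log u ≤ a * Real.log a + (u - a) := by
      rcases ha.eq_or_lt with h' | h'
      · rw [← h']
        simp only [zero_mul, sub_zero, zero_add]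
        exact h.le
      · have h2 := Real.log_le_sub_one_of_pos (div_pos h h')
        rw [Real.log_div h.ne' h'.ne'] at h2
        have h3 := mul_le_mul_of_nonneg_left h2 h'.le
        have h4 : a * (u / a - 1) = u - a := by field_simp
        rw [h4] at h3
        linarith
    have e2 : b * Real.log u ≤ b * (Real.log c - 1) + b * u / c := by
      have h2 := Real.log_le_sub_one_of_pos (div_pos h hc)
      rw [Real.log_div h.ne' hc.ne'] at h2
      have h3 := mul_le_mul_of_nonneg_left h2 hb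
      have h4 : b * (u / c - 1) = b * u / c - b := by ring
      rw [h4] at h3
      linarith
    have e3 := mul_le_mul_of_nonneg_left e1 (show 0 ≤ 1 - t by linarith)
    have e4 := mul_le_mul_of_nonneg_left e2 h0
    have e5 : u - a = t * (b - a) := by rw [hu]; ring
    rw [e5] at e3
    have e6 : u * Real.log u = (1 - t) * (a * Real.log u) + t * (b * Real.log u) := by
      rw [hu]; ring
    rw [e6]
    have e7 : t * (b * (Real.log c - 1) + b * u / c) =
      t * (Real.log c - 1) * b + t / c * (b * u) := by ring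
    rw [e7] at e4
    linarith

/-- the entropy of the mixture -/
theorem SL_sent {ρ g : ℂ → ℝ} (h : Dens ρ) (hg : Dens g) {t c : ℝ} (h0 : 0 ≤ t) (h1 : t ≤ 1)
    (hc : 0 < c) (hi : Integrable fun x => g x * mix t ρ g x)
    (hgc : ∫ x, g x * mix t ρ g x ≤ c) :
    (1 - t) * Sent ρ - t * Real.log c ≤ Sent (mix t ρ g) := by
  have j1 : Integrable fun x => (1 - t) * (ρ x * Real.log (ρ x)) := h.ent.const_mul _
  have j2 : Integrable fun x => (1 - t) * t * (g x - ρ x) := (hg.int.sub h.int).const_mul _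
  have j3 : Integrable fun x => t * (Real.log c - 1) * g x := hg.int.const_mul _
  have j4 : Integrable fun x => t / c * (g x * mix t ρ g x) := hi.const_mul _
  have k1 : ∫ x, mix t ρ g x * Real.log (mix t ρ g x) ≤
      ∫ x, ((1 - t) * (ρ x * Real.log (ρ x)) + (1 - t) * t * (g x - ρ x) +
        t * (Real.log c - 1) * g x + t / c * (g x * mix t ρ g x)) := by
    refine integral_mono (MX_ent h hg h0 h1) (((j1.add j2).add j3).add j4) fun x => ?_
    exact SL_point (h.nonneg x) (hg.nonneg x) h0 h1 hc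
  have k2 : ∫ x, ((1 - t) * (ρ x * Real.log (ρ x)) + (1 - t) * t * (g x - ρ x) +
        t * (Real.log c - 1) * g x + t / c * (g x * mix t ρ g x)) =
      (1 - t) * (∫ x, ρ x * Real.log (ρ x)) + (1 - t) * t * ((∫ x, g x) - ∫ x, ρ x) +
        t * (Real.log c - 1) * (∫ x, g x) + t / c * ∫ x, g x * mix t ρ g x := by
    rw [integral_add (f := fun x => (1 - t) * (ρ x * Real.log (ρ x)) + (1 - t) * t * (g x - ρ x) +
        t * (Real.log c - 1) * g x) ((j1.add j2).add j3) j4,
      integral_add (f := fun x => (1 - t) * (ρ x * Real.log (ρ x)) + (1 - t) * t * (g x - ρ x))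
        (j1.add j2) j3, integral_add j1 j2, integral_const_mul, integral_const_mul,
      integral_const_mul, integral_const_mul, integral_sub hg.int h.int]
  rw [k2, h.one, hg.one] at k1
  have k3 : t / c * (∫ x, g x * mix t ρ g x) ≤ t := by
    calc t / c * (∫ x, g x * mix t ρ g x) ≤ t / c * c :=
        mul_le_mul_of_nonneg_left hgc (div_nonneg h0 hc.le)
      _ = t := div_mul_cancel₀ t hc.ne'
  unfold Sent
  linarith

/-- `∫ |x| ρ ≤ (1 + mo ρ)/2` -/
theorem SL_first {ρ : ℂ → ℝ} (h : Dens ρ) : ∫ x, ‖x‖ * ρ x ≤ (1 + mo ρ) / 2 := by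
  have h1 : ∫ x, ‖x‖ * ρ x ≤ ∫ x, (1 / 2 * ρ x + 1 / 2 * (‖x‖ ^ 2 * ρ x)) := by
    refine integral_mono (EN_first h) ((h.int.const_mul _).add (h.mom.const_mul _)) fun x => ?_
    have h0 := h.nonneg x
    nlinarith [sq_nonneg (‖x‖ - 1), mul_nonneg (sq_nonneg (‖x‖ - 1)) h0]
  rw [integral_add (h.int.const_mul _) (h.mom.const_mul _), integral_const_mul,
    integral_const_mul, h.one] at h1
  unfold mo
  linarith

/-- the interaction energy with the annulus -/
theorem SL_En {ρ : ℂ → ℝ} (h : Dens ρ) {R : ℝ} (hR : 1 ≤ R) :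
    -((∫ x, ‖x‖ * ρ x) + Real.log (1 + 2 * R)) ≤ 4 * Real.pi * En ρ (SL_g R) := by
  have hg := SL_g_dens (show (0 : ℝ) < R by linarith)
  set L : ℝ := Real.log (1 + 2 * R) with hL
  have i0 : Integrable fun x => (‖x‖ + L) * ρ x := by
    have := (EN_first h).add (h.int.const_mul L)
    refine this.congr (Filter.Eventually.of_forall fun x => ?_)
    simp only [Pi.add_apply]
    ring
  have i1 : Integrable fun p : ℂ × ℂ => (‖p.1‖ + L) * ρ p.1 * SL_g R p.2 := i0.mul_prod hg.int
  have h1 : ∫ p : ℂ × ℂ, Real.log ‖p.1 - p.2‖ * (ρ p.1 * SL_g R p.2) ≤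
      ∫ p : ℂ × ℂ, (‖p.1‖ + L) * ρ p.1 * SL_g R p.2 := by
    refine integral_mono (EN_int h hg) i1 fun p => ?_
    show Real.log ‖p.1 - p.2‖ * (ρ p.1 * SL_g R p.2) ≤ (‖p.1‖ + L) * ρ p.1 * SL_g R p.2
    rw [mul_assoc]
    by_cases hp : p.2 ∈ SL_A R
    · refine mul_le_mul_of_nonneg_right ?_ (mul_nonneg (h.nonneg _) (SL_g_nonneg R _))
      have hn := hp.2
      have hn0 := norm_nonneg p.1
      rcases (norm_nonneg (p.1 - p.2)).eq_or_lt with h' | h'
      · rw [← h', Real.log_zero]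
        have : 0 ≤ L := Real.log_nonneg (by linarith)
        linarith
      · have e1 : ‖p.1 - p.2‖ ≤ (‖p.1‖ + 1) * (1 + 2 * R) := by
          have := norm_sub_le p.1 p.2
          nlinarith
        have e2 := Real.log_le_log h' e1
        rw [Real.log_mul (by linarith) (by linarith)] at e2
        have e3 := Real.log_le_sub_one_of_pos (show 0 < ‖p.1‖ + 1 by linarith)
        linarith
    · have : SL_g R p.2 = 0 := indicator_of_notMem hp _
      rw [this]
      simp
  have h2 : ∫ p : ℂ × ℂ, (‖p.1‖ + L) * ρ p.1 * SL_g R p.2 =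
      (∫ x, (‖x‖ + L) * ρ x) * ∫ x, SL_g R x :=
    integral_prod_mul (fun x => (‖x‖ + L) * ρ x) (SL_g R)
  have h3 : ∫ x, (‖x‖ + L) * ρ x = (∫ x, ‖x‖ * ρ x) + L := by
    have : (fun x => (‖x‖ + L) * ρ x) = fun x => ‖x‖ * ρ x + L * ρ x := by
      funext x; ring
    rw [this, integral_add (EN_first h) (h.int.const_mul L), integral_const_mul, h.one, mul_one]
  rw [h2, h3, hg.one, mul_one] at h1
  have h4 : 4 * Real.pi * En ρ (SL_g R) =
      -∫ p : ℂ × ℂ, Real.log ‖p.1 - p.2‖ * (ρ p.1 * SL_g R p.2) := by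
    unfold En
    have : Real.pi ≠ 0 := Real.pi_ne_zero
    field_simp
  rw [h4]
  linarith

/-- the mass the mixture gives to the annulus -/
theorem SL_mass {ρ : ℂ → ℝ} (h : Dens ρ) {R K t : ℝ} (hR : 1 ≤ R) (hK : 1 ≤ K) (h0 : 0 ≤ t)
    (h1 : t ≤ 1 / (K * R ^ 2)) (hA : ∫ x in SL_A R, ρ x ≤ 1 / (K * R ^ 2)) :
    Integrable (fun x => SL_g R x * mix t ρ (SL_g R) x) ∧
      ∫ x, SL_g R x * mix t ρ (SL_g R) x ≤ 1 / (K * R ^ 4) := by
  have hR0 : 0 < R := by linarith
  have hg := SL_g_dens hR0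
  have hm := MX_int h hg t
  have e1 : (fun x => SL_g R x * mix t ρ (SL_g R) x) =
      (SL_A R).indicator fun x => (3 * Real.pi * R ^ 2)⁻¹ * mix t ρ (SL_g R) x := by
    funext x
    by_cases hx : x ∈ SL_A R
    · rw [indicator_of_mem hx]
      congr 1
      exact indicator_of_mem hx _
    · rw [indicator_of_notMem hx]
      have : SL_g R x = 0 := indicator_of_notMem hx _
      rw [this, zero_mul]
  have e2 : Integrable (fun x => SL_g R x * mix t ρ (SL_g R) x) := by
    rw [e1, integrable_indicator_iff (SL_A_meas R)]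
    exact (hm.const_mul _).integrableOn
  refine ⟨e2, ?_⟩
  rw [e1, integral_indicator (SL_A_meas R), integral_const_mul]
  have e3 : ∫ x in SL_A R, mix t ρ (SL_g R) x =
      (1 - t) * (∫ x in SL_A R, ρ x) + t * ∫ x in SL_A R, SL_g R x := by
    unfold mix
    rw [integral_add (h.int.const_mul _).integrableOn (hg.int.const_mul _).integrableOn,
      integral_const_mul, integral_const_mul]
  have e4 : ∫ x in SL_A R, SL_g R x ≤ 1 := by
    rw [← hg.one]
    exact setIntegral_le_integral hg.int (Filter.Eventually.of_forall hg.nonneg)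
  have e5 : 0 ≤ ∫ x in SL_A R, ρ x := integral_nonneg h.nonneg
  have e6 : ∫ x in SL_A R, mix t ρ (SL_g R) x ≤ 2 / (K * R ^ 2) := by
    rw [e3]
    have e7 : (1 - t) * (∫ x in SL_A R, ρ x) ≤ ∫ x in SL_A R, ρ x := by nlinarith
    have e8 : t * (∫ x in SL_A R, SL_g R x) ≤ t := by nlinarith
    have e9 : 2 / (K * R ^ 2) = 1 / (K * R ^ 2) + 1 / (K * R ^ 2) := by ring
    rw [e9]
    linarith
  have hpi := Real.pi_gt_three
  calc (3 * Real.pi * R ^ 2)⁻¹ * ∫ x in SL_A R, mix t ρ (SL_g R) x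
      ≤ (3 * Real.pi * R ^ 2)⁻¹ * (2 / (K * R ^ 2)) :=
        mul_le_mul_of_nonneg_left e6 (by positivity)
    _ = (2 / (3 * Real.pi)) * (1 / (K * R ^ 4)) := by
        field_simp
    _ ≤ 1 * (1 / (K * R ^ 4)) := by
        refine mul_le_mul_of_nonneg_right ?_ (by positivity)
        rw [div_le_one (by positivity)]
        linarith
    _ = 1 / (K * R ^ 4) := one_mul _

theorem SL_main {ρ : ℂ → ℝ} (h : Dens ρ) (hm : mo ρ < 1) : ∃ ρ' : ℂ → ℝ, Dens ρ' ∧ mo ρ' ≤ 1 ∧
    En ρ ρ ≤ En ρ' ρ' ∧ Sent ρ < Sent ρ' := by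
  set E : ℝ := 4 * Real.pi * En ρ ρ with hE
  set S : ℝ := Sent ρ with hS
  set C : ℝ := 2 * |E| + 10 with hC
  have hC0 : 0 ≤ C := by positivity
  set K : ℝ := Real.exp (|S| + 2 * C + 1) with hK
  have hK1 : 1 ≤ K := Real.one_le_exp (by positivity)
  have hK0 : 0 < K := by linarith
  have hlK : Real.log K = |S| + 2 * C + 1 := Real.log_exp _
  obtain ⟨R, hR, hA⟩ := SL_thin h hK0
  have hR0 : 0 < R := by linarith
  have hg := SL_g_dens hR0
  set t : ℝ := min ((1 - mo ρ) / 4) (1 / K) / R ^ 2 with ht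
  have hmin : 0 < min ((1 - mo ρ) / 4) (1 / K) := lt_min (by linarith) (by positivity)
  have ht0 : 0 < t := div_pos hmin (by positivity)
  have htK : t ≤ 1 / (K * R ^ 2) := by
    have e1 : 1 / (K * R ^ 2) = 1 / K / R ^ 2 := by rw [div_div]
    rw [ht, e1]
    exact div_le_div_of_nonneg_right (min_le_right _ _) (by positivity)
  have htR : t ≤ 1 / R ^ 2 := by
    refine htK.trans ?_
    rw [div_le_div_iff_of_pos_left (by norm_num) (by positivity) (by positivity)]
    have : 0 < R ^ 2 := by positivity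
    nlinarith
  have htR1 : t * R ^ 2 ≤ 1 := by
    rw [le_div_iff₀ (by positivity)] at htR
    exact htR
  have ht1 : t ≤ 1 := by
    have : 1 ≤ R ^ 2 := one_le_pow₀ hR
    nlinarith
  have htm : t * (4 * R ^ 2) ≤ 1 - mo ρ := by
    have e1 : t * R ^ 2 = min ((1 - mo ρ) / 4) (1 / K) := by
      rw [ht]
      field_simp
    have e2 := min_le_left ((1 - mo ρ) / 4) (1 / K)
    linarith
  set σ : ℂ → ℝ := mix t ρ (SL_g R) with hσ
  have hd : Dens σ := MX_dens h hg ht0.le ht1
  have hmσ : mo σ ≤ 1 := by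
    rw [hσ, MX_mo h hg]
    have e1 := SL_g_mo hR0
    have e2 : 0 ≤ mo ρ := integral_nonneg fun x => mul_nonneg (sq_nonneg _) (h.nonneg x)
    have e3 : t * mo (SL_g R) ≤ t * (4 * R ^ 2) := mul_le_mul_of_nonneg_left e1 ht0.le
    nlinarith
  -- the entropy
  obtain ⟨i1, i2⟩ := SL_mass h hR hK1 ht0.le htK hA
  have hSσ := SL_sent h hg ht0.le ht1 (show (0 : ℝ) < 1 / (K * R ^ 4) by positivity) i1 i2
  rw [← hσ, ← hS] at hSσ
  have hlc : Real.log (1 / (K * R ^ 4)) = -(Real.log K + 4 * Real.log R) := by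
    rw [one_div, Real.log_inv, Real.log_mul hK0.ne' (by positivity), Real.log_pow]
    push_cast
    ring
  rw [hlc, hlK] at hSσ
  -- the energy
  have hlR : 0 ≤ Real.log R := Real.log_nonneg hR
  have hl3 : Real.log (1 + 2 * R) ≤ Real.log R + 2 := by
    have e1 : Real.log (1 + 2 * R) ≤ Real.log (3 * R) :=
      Real.log_le_log (by linarith) (by linarith)
    rw [Real.log_mul (by norm_num) hR0.ne'] at e1
    have e2 : Real.log 3 ≤ 3 - 1 := Real.log_le_sub_one_of_pos (by norm_num)
    linarith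
  have hE1 : -(Real.log R + 3) ≤ 4 * Real.pi * En ρ (SL_g R) := by
    have e1 := SL_En h hR
    have e2 := SL_first h
    linarith
  have hE2 : -(4 * R) ≤ 4 * Real.pi * En (SL_g R) (SL_g R) := by
    have e1 := SL_En hg hR
    have e2 : ∫ x, ‖x‖ * SL_g R x ≤ 2 * R := by
      have e3 : ∫ x, ‖x‖ * SL_g R x ≤ ∫ x, 2 * R * SL_g R x := by
        refine integral_mono (EN_first hg) (hg.int.const_mul _) fun x => ?_
        show ‖x‖ * SL_g R x ≤ 2 * R * SL_g R x
        by_cases hx : x ∈ SL_A R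
        · exact mul_le_mul_of_nonneg_right hx.2.le (SL_g_nonneg R x)
        · have : SL_g R x = 0 := indicator_of_notMem hx _
          rw [this]
          simp
      rw [integral_const_mul, hg.one, mul_one] at e3
      exact e3
    have e4 := Real.log_le_sub_one_of_pos (show 0 < 1 + 2 * R by linarith)
    linarith
  set l : ℝ := t * (2 * Real.log R + C) with hl
  have hEσ : E - l ≤ 4 * Real.pi * En σ σ := by
    rw [hσ, EN_mix h hg]
    have e0 : 4 * Real.pi * ((1 - t) ^ 2 * En ρ ρ + 2 * t * (1 - t) * En ρ (SL_g R) +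
        t ^ 2 * En (SL_g R) (SL_g R)) = (1 - t) ^ 2 * E + 2 * t * (1 - t) *
          (4 * Real.pi * En ρ (SL_g R)) + t ^ 2 * (4 * Real.pi * En (SL_g R) (SL_g R)) := by
      rw [hE]; ring
    rw [e0]
    have e1 : 2 * t * (1 - t) * -(Real.log R + 3) ≤
        2 * t * (1 - t) * (4 * Real.pi * En ρ (SL_g R)) :=
      mul_le_mul_of_nonneg_left hE1 (mul_nonneg (by linarith) (by linarith))
    have e2 : t ^ 2 * -(4 * R) ≤ t ^ 2 * (4 * Real.pi * En (SL_g R) (SL_g R)) :=
      mul_le_mul_of_nonneg_left hE2 (sq_nonneg _)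
    have e3 : E - 2 * t * |E| ≤ (1 - t) ^ 2 * E := by
      have f1 : (1 - t) ^ 2 * E = E - t * (2 - t) * E := by ring
      rw [f1]
      have f2 : t * (2 - t) * E ≤ t * (2 - t) * |E| :=
        mul_le_mul_of_nonneg_left (le_abs_self E) (mul_nonneg ht0.le (by linarith))
      have f3 : t * (2 - t) * |E| ≤ t * 2 * |E| :=
        mul_le_mul_of_nonneg_right (mul_le_mul_of_nonneg_left (by linarith) ht0.le)
          (abs_nonneg E)
      linarith
    have e4 : -(2 * t * (Real.log R + 3)) ≤ 2 * t * (1 - t) * -(Real.log R + 3) := by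
      have : 0 ≤ t * t * (Real.log R + 3) := by positivity
      nlinarith
    have e5 : -(4 * t) ≤ t ^ 2 * -(4 * R) := by
      have f1 : t * R ≤ 1 := by
        have : R ≤ R ^ 2 := by nlinarith
        nlinarith
      nlinarith
    rw [hl, hC]
    linarith
  have hl0 : 0 ≤ l := mul_nonneg ht0.le (by linarith)
  obtain ⟨d1, d2, d3, -, d5⟩ := GE_dil hd (Real.exp_pos (-l))
  refine ⟨dil (Real.exp (-l)) σ, d1, ?_, ?_, ?_⟩
  · rw [d3]
    have e1 : Real.exp (-l) ^ 2 ≤ 1 := by
      have : Real.exp (-l) ≤ 1 := Real.exp_le_one_iff.2 (by linarith)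
      exact pow_le_one₀ (Real.exp_pos _).le this
    have e2 : 0 ≤ mo σ := integral_nonneg fun x => mul_nonneg (sq_nonneg _) (hd.nonneg x)
    nlinarith
  · rw [d5, Real.log_exp]
    have hpi := Real.pi_pos
    have e1 : 4 * Real.pi * En ρ ρ ≤
        4 * Real.pi * (En σ σ - 1 / (4 * Real.pi) * -l) := by
      have : 4 * Real.pi * (En σ σ - 1 / (4 * Real.pi) * -l) = 4 * Real.pi * En σ σ + l := by
        field_simp
        ring
      rw [this]
      linarith
    exact le_of_mul_le_mul_left e1 (by positivity)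
  · rw [d2, Real.log_exp]
    have e1 : S ≤ |S| := le_abs_self S
    rw [hl]
    have e2 : 0 < t * (|S| - S + 1) := mul_pos ht0 (by linarith)
    clear_value E S C K t σ l
    linarith

end

end Pool.Agent.Lib_helper68.MC
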